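import Mathlib

open Polynomial in
/-- For every `k ≥ 2` and every prime `p > k + 5`, the polynomial
`x^((p-1)/2) + (x+1)^((p-1)/2) + k` has range sum `k p`, degree `(p-1)/2`, and is not of the
form `c ((a x + b)^((p-1)/2) + 1) + d`, not even as a function. -/
theorem Pool.Agent.Results.MP_1e20d6_nt.Counter.result (k : ℕ) (hk : 2 ≤ k) (p : ℕ)
    [Fact p.Prime] (hp : k + 5 < p) :
    ∃ P : (ZMod p)[X], ∑ x : ZMod p, (P.eval x).val = k * p ∧ P.natDegree ≤ (p - 1) / 2 ∧
      ¬ ∃ c d a b : ZMod p, a ≠ 0 ∧
        ∀ x : ZMod p, P.eval x = c * ((a * x + b) ^ ((p - 1) / 2) + 1) + d := by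
  have hpp : p.Prime := Fact.out
  have hodd : p % 2 = 1 := (hpp.eq_two_or_odd).resolve_left (by omega)
  have hh : (p - 1) / 2 = p / 2 := by omega
  have hchar : ringChar (ZMod p) ≠ 2 := by rw [ZMod.ringChar_zmod_n]; omega
  have hχ : ∀ x : ZMod p, x ^ ((p - 1) / 2) = (quadraticChar (ZMod p) x : ZMod p) := by
    intro x
    rw [quadraticChar_eq_pow_of_char_ne_two' hchar, ZMod.card, hh]
  have hne : ∀ m : ℕ, 0 < m → m < p → (m : ZMod p) ≠ 0 := by
    intro m h0 h1 h
    rw [ZMod.natCast_eq_zero_iff] at h
    exact absurd (Nat.le_of_dvd h0 h) (by omega)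
  have h2 : (2 : ZMod p) ≠ 0 := by exact_mod_cast hne 2 (by norm_num) (by omega)
  have h3 : (3 : ZMod p) ≠ 0 := by exact_mod_cast hne 3 (by norm_num) (by omega)
  have h5 : (5 : ZMod p) ≠ 0 := by exact_mod_cast hne 5 (by norm_num) (by omega)
  have htri : ∀ x : ZMod p, quadraticChar (ZMod p) x = 0 ∨ quadraticChar (ZMod p) x = 1 ∨
      quadraticChar (ZMod p) x = -1 := fun x => quadraticChar_isQuadratic (ZMod p) x
  have hdi : ∀ x : ZMod p, x ≠ 0 → x ^ ((p - 1) / 2) = 1 ∨ x ^ ((p - 1) / 2) = -1 := by
    intro x hx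
    rw [hχ]
    rcases quadraticChar_dichotomy hx with h | h <;> simp [h]
  have h0 : (0 : ZMod p) ^ ((p - 1) / 2) = 0 := zero_pow (by omega)
  refine ⟨X ^ ((p - 1) / 2) + (X + 1) ^ ((p - 1) / 2) + C (k : ZMod p), ?_, ?_, ?_⟩
  · have hval : ∀ x : ZMod p,
        (((X ^ ((p - 1) / 2) + (X + 1) ^ ((p - 1) / 2) + C (k : ZMod p)).eval x).val : ℤ) =
        quadraticChar (ZMod p) x + quadraticChar (ZMod p) (x + 1) + k := by
      intro x
      simp only [eval_add, eval_pow, eval_X, eval_one, eval_C, hχ]
      rw [show ((quadraticChar (ZMod p) x : ZMod p) + (quadraticChar (ZMod p) (x + 1) : ZMod p)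
          + (k : ZMod p)) = ((quadraticChar (ZMod p) x + quadraticChar (ZMod p) (x + 1) + k : ℤ) :
            ZMod p) by push_cast; ring, ZMod.val_intCast]
      refine Int.emod_eq_of_lt ?_ ?_ <;>
      rcases htri x with h | h | h <;> rcases htri (x + 1) with h' | h' | h' <;>
      rw [h, h'] <;> omega
    have : ((∑ x : ZMod p,
        ((X ^ ((p - 1) / 2) + (X + 1) ^ ((p - 1) / 2) + C (k : ZMod p)).eval x).val : ℕ) : ℤ) =
        ((k * p : ℕ) : ℤ) := by
      push_cast
      simp only [hval]
      rw [Finset.sum_add_distrib, Finset.sum_add_distrib, quadraticChar_sum_zero hchar,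
        Equiv.sum_comp (Equiv.addRight (1 : ZMod p)) (fun x => quadraticChar (ZMod p) x) |>.trans
          (quadraticChar_sum_zero hchar) |> (fun h => by simpa using h :
            _ → ∑ x : ZMod p, quadraticChar (ZMod p) (x + 1) = 0)]
      simp [ZMod.card, mul_comm]
    exact_mod_cast this
  · refine (natDegree_add_le _ _).trans (max_le ((natDegree_add_le _ _).trans (max_le ?_ ?_)) ?_)
    · simp
    · refine natDegree_pow_le.trans ?_
      rw [← C_1, natDegree_X_add_C, mul_one]
    · simp
  · rintro ⟨c, d, a, b, ha, h⟩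
    simp only [eval_add, eval_pow, eval_X, eval_one, eval_C] at h
    have key : ∀ y : ZMod p, (y = 0 ∨ y = -1) → a * y + b = 0 := by
      intro y hy
      by_contra hy0
      have hz : ∀ t z : ZMod p, t ≠ 0 → a * z + b = t ^ 2 * (a * y + b) → z = 0 ∨ z = -1 := by
        intro t z ht hz
        by_contra hz'
        push Not at hz'
        have e : (a * z + b) ^ ((p - 1) / 2) = (a * y + b) ^ ((p - 1) / 2) := by
          rw [hz, mul_pow, ← pow_mul, show 2 * ((p - 1) / 2) = p - 1 by omega,
            ZMod.pow_card_sub_one_eq_one ht, one_mul]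
        have e2 : z ^ ((p - 1) / 2) + (z + 1) ^ ((p - 1) / 2) =
            y ^ ((p - 1) / 2) + (y + 1) ^ ((p - 1) / 2) := by
          have e3 := h z
          rw [e, ← h y] at e3
          linear_combination e3
        have e4 : y ^ ((p - 1) / 2) + (y + 1) ^ ((p - 1) / 2) = 1 ∨
            y ^ ((p - 1) / 2) + (y + 1) ^ ((p - 1) / 2) = -1 := by
          rcases hy with rfl | rfl
          · left; simp [h0]
          · rw [neg_add_cancel, h0, add_zero]
            exact hdi _ (by simp)
        have hz1 : z + 1 ≠ 0 := fun h => hz'.2 (by linear_combination h)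
        rcases hdi z hz'.1 with h6 | h6 <;> rcases hdi _ hz1 with h7 | h7 <;>
        rcases e4 with h8 | h8 <;> rw [h6, h7, h8] at e2
        · exact one_ne_zero (α := ZMod p) (by linear_combination e2)
        · exact h3 (by linear_combination e2)
        · exact one_ne_zero (α := ZMod p) (by linear_combination -e2)
        · exact one_ne_zero (α := ZMod p) (by linear_combination e2)
        · exact one_ne_zero (α := ZMod p) (by linear_combination -e2)
        · exact one_ne_zero (α := ZMod p) (by linear_combination e2)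
        · exact h3 (by linear_combination -e2)
        · exact one_ne_zero (α := ZMod p) (by linear_combination -e2)
      set w := (a * y + b) / a with hw
      have hw0 : w ≠ 0 := div_ne_zero hy0 ha
      have haw : a * w = a * y + b := by rw [hw]; field_simp
      have z2 := hz 2 (y + 3 * w) h2 (by linear_combination 3 * haw)
      have z3 := hz 3 (y + 8 * w) h3 (by linear_combination 8 * haw)
      have n3 : 3 * w ≠ 0 := mul_ne_zero h3 hw0
      have n5 : 5 * w ≠ 0 := mul_ne_zero h5 hw0
      have n8 : 8 * w ≠ 0 :=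
        mul_ne_zero (by rw [show (8 : ZMod p) = 2 ^ 3 by norm_num]; exact pow_ne_zero _ h2) hw0
      rcases hy with hy | hy <;> rcases z2 with z2 | z2 <;> rcases z3 with z3 | z3
      · exact n3 (by linear_combination z2 - hy)
      · exact n3 (by linear_combination z2 - hy)
      · exact n8 (by linear_combination z3 - hy)
      · exact n5 (by linear_combination z3 - z2)
      · exact n5 (by linear_combination z3 - z2)
      · exact n8 (by linear_combination z3 - hy)
      · exact n3 (by linear_combination z2 - hy)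
      · exact n3 (by linear_combination z2 - hy)
    exact ha (by linear_combination key 0 (Or.inl rfl) - key (-1) (Or.inr rfl))
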